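import Pool.Graph.R_pool_sql_team_seeded_63374d34.N68.Corner.Limit

/-!
# Corner-free sets with integer lifts

The proofs of `hashLift`, `main_finite_lift` and `exists_cornerFree_lift` repeat those of `hash`,
`main_finite` and `exists_cornerFree` in the library (`N68/Corner`), and keep the integer lifts.
-/

set_option autoImplicit false
set_option linter.unusedSectionVars false

namespace Pool.Agent.Helper41.Corner

open Finset Pool.Agent.N68.Corner

variable {ι : Type*} [Fintype ι] [DecidableEq ι]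

/-- `A` has integer lifts. -/
def Lifts (m : ℕ) (A : Finset ((ι → ZMod m) × (ι → ZMod m))) : Prop :=
  ∃ φ ψ χ : (ι → ZMod m) → (ι → ℤ), (∀ x, red m (φ x) = x) ∧ (∀ x, red m (ψ x) = x) ∧
    (∀ x, red m (χ x) = x) ∧ ∀ p ∈ A, φ p.1 + ψ p.2 = χ (p.1 + p.2)

/-- the smallest nonnegative lift -/
def std (m : ℕ) (x : ι → ZMod m) : ι → ℤ := fun i => ((x i).val : ℤ)

lemma red_std (m : ℕ) [NeZero m] (x : ι → ZMod m) : red m (std m x) = x := by
  funext i
  simp [red, std]

lemma exists_section (m : ℕ) [NeZero m] {α : Type*} (H : Finset α) (g : α → (ι → ℤ))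
    (hg : ∀ t ∈ H, ∀ t' ∈ H, red m (g t') = red m (g t) → g t' = g t) :
    ∃ φ : (ι → ZMod m) → (ι → ℤ), (∀ x, red m (φ x) = x) ∧ ∀ t ∈ H, φ (red m (g t)) = g t := by
  classical
  let φ : (ι → ZMod m) → (ι → ℤ) := fun x =>
    if h : ∃ t ∈ H, red m (g t) = x then g h.choose else std m x
  refine ⟨φ, fun x => ?_, fun t ht => ?_⟩
  · by_cases h : ∃ t ∈ H, red m (g t) = x
    · have e : φ x = g h.choose := dif_pos h
      rw [e]
      exact h.choose_spec.2
    · have e : φ x = std m x := dif_neg h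
      rw [e, red_std]
  · have h : ∃ t' ∈ H, red m (g t') = red m (g t) := ⟨t, ht, rfl⟩
    have e : φ (red m (g t)) = g h.choose := dif_pos h
    rw [e]
    exact hg t ht _ h.choose_spec.1 h.choose_spec.2

/-- **Hashing.** `B` is a set of integer vectors with bounded entries and equal lengths, which has
at most `μ` elements in every residue class modulo `m`, and `T` a set of pairs `(u, v)` with `u`,
`v`, `u + v ∈ B`. Then there is a corner-free set with at least `|T| / (2 Q²)` elements. -/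
theorem hashLift (m : ℕ) [NeZero m] (L μ Q : ℕ) [hQ : Fact Q.Prime] (hQL : 2 * L < Q) (hQμ : 6 * μ ≤ Q)
    (R : ℤ) (B : Finset (ι → ℤ)) (hB : ∀ u ∈ B, (∀ i, |u i| ≤ L) ∧ nrm u = R)
    (hμ : ∀ x : ι → ZMod m, (B.filter (fun u => red m u = x)).card ≤ μ)
    (T : Finset ((ι → ℤ) × (ι → ℤ))) (hT : ∀ t ∈ T, t.1 ∈ B ∧ t.2 ∈ B ∧ t.1 + t.2 ∈ B) :
    ∃ A : Finset ((ι → ZMod m) × (ι → ZMod m)), CornerFree A ∧ Lifts m A ∧
      T.card ≤ 2 * Q ^ 2 * A.card := by
  classical
  -- aliases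
  let al : (ι → ZMod Q) → (ι → ℤ) → Prop := fun a u =>
    ∃ u' ∈ B, u' ≠ u ∧ red m u' = red m u ∧ dot a u' = dot a u
  -- every vector has few aliases on average
  have hal : ∀ u ∈ B, Q * (univ.filter (fun a : ι → ZMod Q => al a u)).card ≤
      μ * Q ^ Fintype.card ι := by
    intro u hu
    set C := B.filter (fun u' => red m u' = red m u) with hC
    have h1 : (univ.filter (fun a : ι → ZMod Q => al a u)) ⊆
        (C.erase u).biUnion (fun u' => univ.filter (fun a : ι → ZMod Q => dot a (u' - u) = 0)) := by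
      intro a ha
      obtain ⟨u', hu', hne, hr, hd⟩ := (mem_filter.1 ha).2
      rw [mem_biUnion]
      refine ⟨u', mem_erase.2 ⟨hne, mem_filter.2 ⟨hu', hr⟩⟩, ?_⟩
      rw [mem_filter]
      refine ⟨mem_univ _, ?_⟩
      rw [dot_sub, hd, sub_self]
    have h2 : ∀ u' ∈ C.erase u,
        Q * (univ.filter (fun a : ι → ZMod Q => dot a (u' - u) = 0)).card ≤
          Q ^ Fintype.card ι := by
      intro u' hu'
      rw [mem_erase] at hu'
      have hu'B : u' ∈ B := (mem_filter.1 hu'.2).1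
      obtain ⟨i0, hi0⟩ : ∃ i, u' i ≠ u i := by
        by_contra hcon
        push Not at hcon
        exact hu'.1 (funext hcon)
      apply card_ker (u' - u) i0
      intro hz
      rw [ZMod.intCast_zmod_eq_zero_iff_dvd] at hz
      have b1 := (hB u' hu'B).1 i0
      have b2 := (hB u hu).1 i0
      rw [Pi.sub_apply] at hz
      have h3 : |u' i0 - u i0| < Q := by
        have := abs_sub (u' i0) (u i0)
        have hQ' : ((2 * L : ℕ) : ℤ) < Q := by exact_mod_cast hQL
        push_cast at hQ'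
        linarith
      have h4 := Int.eq_zero_of_abs_lt_dvd hz h3
      exact hi0 (by linarith)
    calc Q * (univ.filter (fun a : ι → ZMod Q => al a u)).card
        ≤ Q * ∑ u' ∈ C.erase u,
            (univ.filter (fun a : ι → ZMod Q => dot a (u' - u) = 0)).card :=
          Nat.mul_le_mul_left _ ((card_le_card h1).trans card_biUnion_le)
      _ = ∑ u' ∈ C.erase u,
            Q * (univ.filter (fun a : ι → ZMod Q => dot a (u' - u) = 0)).card := by
          rw [mul_sum]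
      _ ≤ ∑ u' ∈ C.erase u, Q ^ Fintype.card ι := sum_le_sum h2
      _ = (C.erase u).card * Q ^ Fintype.card ι := by rw [sum_const, smul_eq_mul]
      _ ≤ μ * Q ^ Fintype.card ι := by
          apply Nat.mul_le_mul_right
          exact (card_le_card (erase_subset _ _)).trans (hμ _)
  -- some `a` is good for half of the pairs
  let bad : (ι → ZMod Q) → (ι → ℤ) × (ι → ℤ) → Prop := fun a t =>
    al a t.1 ∨ al a t.2 ∨ al a (t.1 + t.2)
  have hbad : ∀ t ∈ T, Q * (univ.filter (fun a : ι → ZMod Q => bad a t)).card ≤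
      3 * μ * Q ^ Fintype.card ι := by
    intro t ht
    obtain ⟨t1, t2, t3⟩ := hT t ht
    have h1 : (univ.filter (fun a : ι → ZMod Q => bad a t)) ⊆
        (univ.filter (fun a : ι → ZMod Q => al a t.1)) ∪
          ((univ.filter (fun a : ι → ZMod Q => al a t.2)) ∪
            (univ.filter (fun a : ι → ZMod Q => al a (t.1 + t.2)))) := by
      intro a ha
      simp only [mem_union, mem_filter, mem_univ, true_and] at ha ⊢
      exact ha
    have h2 := (card_le_card h1).trans ((card_union_le _ _).trans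
      (Nat.add_le_add_left (card_union_le _ _) _))
    have e1 := hal _ t1
    have e2 := hal _ t2
    have e3 := hal _ t3
    calc _ ≤ Q * _ := Nat.mul_le_mul_left _ h2
      _ ≤ _ := by
        rw [mul_add, mul_add]
        linarith
  have hex : ∃ a : ι → ZMod Q, T.card ≤ 2 * (T.filter (fun t => ¬ bad a t)).card := by
    by_contra hcon
    push Not at hcon
    have h1 : ∀ a : ι → ZMod Q, T.card < 2 * (T.filter (fun t => bad a t)).card := by
      intro a
      have := hcon a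
      have h2 := card_filter_add_card_filter_not (s := T) (fun t => bad a t)
      omega
    have h2 : ∑ a : ι → ZMod Q, T.card < ∑ a : ι → ZMod Q, 2 * (T.filter (fun t => bad a t)).card :=
      sum_lt_sum_of_nonempty univ_nonempty fun a _ => h1 a
    rw [sum_const, card_univ, Fintype.card_fun, ZMod.card, smul_eq_mul, ← mul_sum] at h2
    have h3 : ∑ a : ι → ZMod Q, (T.filter (fun t => bad a t)).card =
        ∑ t ∈ T, (univ.filter (fun a : ι → ZMod Q => bad a t)).card := by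
      simp only [card_filter]
      rw [sum_comm]
    rw [h3] at h2
    have h4 : Q * ∑ t ∈ T, (univ.filter (fun a : ι → ZMod Q => bad a t)).card ≤
        T.card * (3 * μ * Q ^ Fintype.card ι) := by
      rw [mul_sum]
      calc _ ≤ ∑ t ∈ T, 3 * μ * Q ^ Fintype.card ι := sum_le_sum hbad
        _ = _ := by rw [sum_const, smul_eq_mul]
    have hQ0 : 0 < Q := hQ.out.pos
    have h5 : Q * (Q ^ Fintype.card ι * T.card) <
        Q * (2 * ∑ t ∈ T, (univ.filter (fun a : ι → ZMod Q => bad a t)).card) :=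
      Nat.mul_lt_mul_of_pos_left h2 hQ0
    have h6 : Q * (2 * ∑ t ∈ T, (univ.filter (fun a : ι → ZMod Q => bad a t)).card) ≤
        2 * (T.card * (3 * μ * Q ^ Fintype.card ι)) := by
      calc _ = 2 * (Q * ∑ t ∈ T, (univ.filter (fun a : ι → ZMod Q => bad a t)).card) := by ring
        _ ≤ _ := Nat.mul_le_mul_left _ h4
    have h7 : 2 * (T.card * (3 * μ * Q ^ Fintype.card ι)) =
        6 * μ * (Q ^ Fintype.card ι * T.card) := by ring
    rw [h7] at h6
    have h8 : 6 * μ * (Q ^ Fintype.card ι * T.card) ≤ Q * (Q ^ Fintype.card ι * T.card) :=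
      Nat.mul_le_mul_right _ hQμ
    omega
  obtain ⟨a, ha⟩ := hex
  set G := T.filter (fun t => ¬ bad a t) with hG
  -- pigeonhole over the two hash values
  obtain ⟨s, _, hs⟩ : ∃ s ∈ (univ : Finset (ZMod Q × ZMod Q)),
      G.card ≤ Q ^ 2 * (G.filter (fun t => (dot a t.1, dot a t.2) = s)).card := by
    by_contra hcon
    push Not at hcon
    have h1 : G.card = ∑ s : ZMod Q × ZMod Q,
        (G.filter (fun t => (dot a t.1, dot a t.2) = s)).card :=
      card_eq_sum_card_fiberwise fun _ _ => mem_coe.2 (mem_univ _)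
    have h2 : ∑ s : ZMod Q × ZMod Q,
        Q ^ 2 * (G.filter (fun t => (dot a t.1, dot a t.2) = s)).card <
        ∑ s : ZMod Q × ZMod Q, G.card :=
      sum_lt_sum_of_nonempty univ_nonempty hcon
    rw [← mul_sum, ← h1, sum_const, card_univ, Fintype.card_prod, ZMod.card, smul_eq_mul] at h2
    rw [pow_two] at h2
    exact lt_irrefl _ h2
  set H := G.filter (fun t => (dot a t.1, dot a t.2) = s) with hH
  have hmem : ∀ t ∈ H, t ∈ T ∧ ¬ bad a t ∧ dot a t.1 = s.1 ∧ dot a t.2 = s.2 := by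
    intro t ht
    rw [hH, mem_filter, hG, mem_filter] at ht
    refine ⟨ht.1.1, ht.1.2, ?_, ?_⟩
    · exact congrArg Prod.fst ht.2
    · exact congrArg Prod.snd ht.2
  -- vectors without aliases
  have uniq : ∀ u ∈ B, ∀ u' ∈ B, ¬ al a u → red m u' = red m u → dot a u' = dot a u → u' = u := by
    intro u _ u' hu' hn hr hd
    by_contra hne
    exact hn ⟨u', hu', hne, hr, hd⟩
  let f : (ι → ℤ) × (ι → ℤ) → (ι → ZMod m) × (ι → ZMod m) := fun t => (red m t.1, red m t.2)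
  have hf : Set.InjOn f H := by
    intro t ht t' ht' h
    rw [mem_coe] at ht ht'
    obtain ⟨k1, k2, k3, k4⟩ := hmem t ht
    obtain ⟨l1, l2, l3, l4⟩ := hmem t' ht'
    simp only [f, Prod.mk.injEq] at h
    have e1 := uniq t'.1 (hT t' l1).1 t.1 (hT t k1).1 (fun hh => l2 (Or.inl hh)) h.1
      (by rw [k3, l3])
    have e2 := uniq t'.2 (hT t' l1).2.1 t.2 (hT t k1).2.1 (fun hh => l2 (Or.inr (Or.inl hh))) h.2
      (by rw [k4, l4])
    exact Prod.ext e1 e2
  refine ⟨H.image f, ?_, ?_, ?_⟩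
  · intro x y z h1 h2 h3
    obtain ⟨t, ht, e⟩ := mem_image.1 h1
    obtain ⟨t', ht', e'⟩ := mem_image.1 h2
    obtain ⟨t'', ht'', e''⟩ := mem_image.1 h3
    obtain ⟨k1, k2, k3, k4⟩ := hmem t ht
    obtain ⟨l1, l2, l3, l4⟩ := hmem t' ht'
    obtain ⟨n1, n2, n3, n4⟩ := hmem t'' ht''
    simp only [f, Prod.mk.injEq] at e e' e''
    have q1 : t'.1 = t.1 := uniq t.1 (hT t k1).1 t'.1 (hT t' l1).1 (fun hh => k2 (Or.inl hh))
      (by rw [e'.1, e.1]) (by rw [k3, l3])
    have q2 : t''.2 = t.2 := uniq t.2 (hT t k1).2.1 t''.2 (hT t'' n1).2.1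
      (fun hh => k2 (Or.inr (Or.inl hh))) (by rw [e''.2, e.2]) (by rw [k4, n4])
    have q3 : t''.1 + t''.2 = t'.1 + t'.2 := by
      apply uniq (t'.1 + t'.2) (hT t' l1).2.2 (t''.1 + t''.2) (hT t'' n1).2.2
        (fun hh => l2 (Or.inr (Or.inr hh)))
      · rw [red_add, red_add, e''.1, e''.2, e'.1, e'.2]
        abel
      · rw [dot_add, dot_add, l3, l4, n3, n4]
    -- write `d = t'.2 - t.2`
    set d := t'.2 - t.2 with hd
    have w1 : t'.2 = t.2 + d := by rw [hd]; abel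
    have w2 : t''.1 = t.1 + d := by
      rw [q2, q1, w1] at q3
      have : t''.1 = t.1 + (t.2 + d) - t.2 := by rw [← q3]; abel
      rw [this]; abel
    have hd0 : d = 0 := by
      apply rigid t.1 t.2 d R
      · exact (hB _ (hT t k1).1).2
      · exact (hB _ (hT t k1).2.1).2
      · exact (hB _ (hT t k1).2.2).2
      · rw [← w1]; exact (hB _ (hT t' l1).2.1).2
      · rw [← w2]; exact (hB _ (hT t'' n1).1).2
      · have := (hB _ (hT t' l1).2.2).2
        rw [q1, w1] at this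
        rw [← this]
        congr 1
        abel
    have h5 : y + z = y := by
      rw [← e'.2, w1, hd0, add_zero, e.2]
    exact left_eq_add.1 h5.symm
  · -- the lifts
    have u1 : ∀ t ∈ H, ∀ t' ∈ H, red m t'.1 = red m t.1 → t'.1 = t.1 := by
      intro t ht t' ht' h
      obtain ⟨k1, k2, k3, k4⟩ := hmem t ht
      obtain ⟨l1, l2, l3, l4⟩ := hmem t' ht'
      exact uniq t.1 (hT t k1).1 t'.1 (hT t' l1).1 (fun hh => k2 (Or.inl hh)) h (by rw [k3, l3])
    have u2 : ∀ t ∈ H, ∀ t' ∈ H, red m t'.2 = red m t.2 → t'.2 = t.2 := by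
      intro t ht t' ht' h
      obtain ⟨k1, k2, k3, k4⟩ := hmem t ht
      obtain ⟨l1, l2, l3, l4⟩ := hmem t' ht'
      exact uniq t.2 (hT t k1).2.1 t'.2 (hT t' l1).2.1 (fun hh => k2 (Or.inr (Or.inl hh))) h
        (by rw [k4, l4])
    have u3 : ∀ t ∈ H, ∀ t' ∈ H, red m (t'.1 + t'.2) = red m (t.1 + t.2) →
        t'.1 + t'.2 = t.1 + t.2 := by
      intro t ht t' ht' h
      obtain ⟨k1, k2, k3, k4⟩ := hmem t ht
      obtain ⟨l1, l2, l3, l4⟩ := hmem t' ht'
      exact uniq (t.1 + t.2) (hT t k1).2.2 (t'.1 + t'.2) (hT t' l1).2.2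
        (fun hh => k2 (Or.inr (Or.inr hh))) h (by rw [dot_add, dot_add, k3, k4, l3, l4])
    obtain ⟨φ, p1, p2⟩ := exists_section m H (fun t => t.1) u1
    obtain ⟨ψ, q1, q2⟩ := exists_section m H (fun t => t.2) u2
    obtain ⟨χ, r1, r2⟩ := exists_section m H (fun t => t.1 + t.2) u3
    refine ⟨φ, ψ, χ, p1, q1, r1, fun p hp => ?_⟩
    obtain ⟨t, ht, rfl⟩ := mem_image.1 hp
    simp only [f]
    rw [p2 t ht, q2 t ht, ← red_add, r2 t ht]
  · rw [card_image_of_injOn hf]
    calc T.card ≤ 2 * G.card := ha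
      _ ≤ 2 * (Q ^ 2 * H.card) := Nat.mul_le_mul_left _ hs
      _ = 2 * Q ^ 2 * H.card := by ring


/-- The finite form, with lifts. -/
theorem main_finite_lift (m : ℕ) [NeZero m] {β : ℝ} (hβ : 0 < β) (L n : ℕ) :
    ∃ A : Finset ((Fin 3 × Fin n → ZMod m) × (Fin 3 × Fin n → ZMod m)), CornerFree A ∧
      Lifts m A ∧ theta β L ^ (3 * n) ≤ 2 * (4 * (L : ℝ) + 14) ^ 2 * ((L : ℝ) ^ 2 * n + 1) ^ 9 *
        (2 + Real.sqrt (Real.pi / (3 * β / 2)) / m) ^ (6 * n) * A.card := by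
  classical
  obtain ⟨r, hr⟩ := exists_r β L n
  set κ := 3 * β / 2 with hκ
  have hκ0 : 0 < κ := by rw [hκ]; positivity
  set R : ℤ := (r.1 : ℤ) + r.2.1 + r.2.2 with hR
  set Θ := 2 + Real.sqrt (Real.pi / κ) / m with hΘ
  have hΘ1 : 1 ≤ Θ := by
    rw [hΘ]
    have : 0 ≤ Real.sqrt (Real.pi / κ) / m := by positivity
    linarith
  have hR0 : (0 : ℝ) ≤ (R : ℝ) := by
    rw [hR]; push_cast; positivity
  set E := Real.exp (κ * R) * Θ ^ (3 * n) with hE
  have hE1 : 1 ≤ E := by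
    rw [hE]
    have h1 : 1 ≤ Real.exp (κ * R) := Real.one_le_exp (by positivity)
    have h2 : 1 ≤ Θ ^ (3 * n) := one_le_pow₀ hΘ1
    calc (1 : ℝ) = 1 * 1 := by ring
      _ ≤ _ := mul_le_mul h1 h2 zero_le_one (by linarith)
  set μ := ⌊E⌋₊ with hμ
  have hμE : (μ : ℝ) ≤ E := Nat.floor_le (by linarith)
  obtain ⟨Q, hQp, hQ1, hQ2⟩ := Nat.exists_prime_lt_and_le_two_mul (6 * μ + 2 * L + 1) (by omega)
  have : Fact Q.Prime := ⟨hQp⟩
  set T : Finset ((Fin 3 × Fin n → ℤ) × (Fin 3 × Fin n → ℤ)) :=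
    (Wr L n r ×ˢ (Wr L n r ×ˢ Wr L n r)).image (fun q => (mkU q, mkV q)) with hT
  have hTcard : T.card = (Wr L n r).card ^ 3 := by
    rw [hT, card_image_of_injective]
    · rw [card_product, card_product]; ring
    · intro q q' h
      simp only [Prod.mk.injEq] at h
      exact mk_inj h.1 h.2
  have hTB : ∀ t ∈ T, t.1 ∈ Bset L n R ∧ t.2 ∈ Bset L n R ∧ t.1 + t.2 ∈ Bset L n R := by
    intro t ht
    obtain ⟨q, hq, rfl⟩ := mem_image.1 ht
    obtain ⟨hq1, hq2⟩ := mem_product.1 hq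
    obtain ⟨hq2, hq3⟩ := mem_product.1 hq2
    obtain ⟨hq1, a1, a2, a3⟩ := mem_filter.1 hq1
    obtain ⟨hq2, b1, b2, b3⟩ := mem_filter.1 hq2
    obtain ⟨hq3, c1, c2, c3⟩ := mem_filter.1 hq3
    have d1 : ∀ i, q.1 i ∈ D L := fun i => Fintype.mem_piFinset.1 hq1 i
    have d2 : ∀ i, q.2.1 i ∈ D L := fun i => Fintype.mem_piFinset.1 hq2 i
    have d3 : ∀ i, q.2.2 i ∈ D L := fun i => Fintype.mem_piFinset.1 hq3 i
    refine ⟨mem_Bset.2 ⟨?_, ?_⟩, mem_Bset.2 ⟨?_, ?_⟩, mem_Bset.2 ⟨?_, ?_⟩⟩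
    · rintro ⟨j, i⟩
      fin_cases j
      · exact (mem_D.1 (d1 i)).1
      · exact (mem_D.1 (d2 i)).2.1
      · show |-((q.2.2 i).1 + (q.2.2 i).2)| ≤ L
        rw [abs_neg]
        exact (mem_D.1 (d3 i)).2.2
    · rw [nrm_mkU, a1, b2, c3]
    · rintro ⟨j, i⟩
      fin_cases j
      · exact (mem_D.1 (d1 i)).2.1
      · show |-((q.2.1 i).1 + (q.2.1 i).2)| ≤ L
        rw [abs_neg]
        exact (mem_D.1 (d2 i)).2.2
      · exact (mem_D.1 (d3 i)).1
    · rw [nrm_mkV, a2, b3, c1, hR]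
      ring
    · rintro ⟨j, i⟩
      fin_cases j
      · exact (mem_D.1 (d1 i)).2.2
      · show |(q.2.1 i).2 + -((q.2.1 i).1 + (q.2.1 i).2)| ≤ L
        have e : (q.2.1 i).2 + -((q.2.1 i).1 + (q.2.1 i).2) = -(q.2.1 i).1 := by ring
        rw [e, abs_neg]
        exact (mem_D.1 (d2 i)).1
      · show |-((q.2.2 i).1 + (q.2.2 i).2) + (q.2.2 i).1| ≤ L
        have e : -((q.2.2 i).1 + (q.2.2 i).2) + (q.2.2 i).1 = -(q.2.2 i).2 := by ring
        rw [e, abs_neg]
        exact (mem_D.1 (d3 i)).2.1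
    · rw [nrm_mkUV, a3, b1, c2, hR]
      ring
  obtain ⟨A, hA, hAL, hAT⟩ := hashLift m L μ Q (by omega) (by omega) R (Bset L n R)
    (fun u hu => mem_Bset.1 hu) (fun x => Nat.le_floor (class_count hκ0 m L n R x)) T hTB
  refine ⟨A, hA, hAL, ?_⟩
  rw [hTcard] at hAT
  have hAT' : ((Wr L n r).card : ℝ) ^ 3 ≤ 2 * (Q : ℝ) ^ 2 * A.card := by exact_mod_cast hAT
  -- size of `Q`
  have hQE : (Q : ℝ) ≤ (4 * (L : ℝ) + 14) * E := by
    have h1 : (Q : ℝ) ≤ 2 * (6 * (μ : ℝ) + 2 * L + 1) := by exact_mod_cast hQ2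
    have h2 : (0 : ℝ) ≤ L := by positivity
    nlinarith
  have hexp : Real.exp (-(β * ((r.1 : ℝ) + r.2.1 + r.2.2))) = Real.exp (-(β * (R : ℝ))) := by
    rw [hR]; push_cast; rfl
  rw [hexp] at hr
  set c : ℝ := ((Wr L n r).card : ℝ) with hc
  have hθ0 : 0 ≤ theta β L := sum_nonneg fun p _ => (wt_pos β p).le
  have h1 : theta β L ^ (3 * n) ≤ (((L : ℝ) ^ 2 * n + 1) ^ 3 * (c * Real.exp (-(β * (R : ℝ))))) ^ 3 := by
    rw [mul_comm 3 n, pow_mul]
    exact pow_le_pow_left₀ (pow_nonneg hθ0 n) hr 3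
  have h2 : E ^ 2 = Real.exp (3 * (β * (R : ℝ))) * Θ ^ (6 * n) := by
    rw [hE, mul_pow, ← Real.exp_nat_mul, ← pow_mul]
    congr 1
    · congr 1
      rw [hκ]; push_cast; ring
    · congr 1; ring
  have h3 : Real.exp (-(β * (R : ℝ))) ^ 3 * Real.exp (3 * (β * (R : ℝ))) = 1 := by
    rw [← Real.exp_nat_mul, ← Real.exp_add]
    have : (((3 : ℕ) : ℝ)) * -(β * (R : ℝ)) + 3 * (β * (R : ℝ)) = 0 := by push_cast; ring
    rw [this, Real.exp_zero]
  calc theta β L ^ (3 * n)
      ≤ (((L : ℝ) ^ 2 * n + 1) ^ 3 * (c * Real.exp (-(β * (R : ℝ))))) ^ 3 := h1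
    _ = ((L : ℝ) ^ 2 * n + 1) ^ 9 * Real.exp (-(β * (R : ℝ))) ^ 3 * c ^ 3 := by ring
    _ ≤ ((L : ℝ) ^ 2 * n + 1) ^ 9 * Real.exp (-(β * (R : ℝ))) ^ 3 *
          (2 * ((4 * (L : ℝ) + 14) * E) ^ 2 * A.card) := by
        apply mul_le_mul_of_nonneg_left _ (by positivity)
        refine hAT'.trans ?_
        apply mul_le_mul_of_nonneg_right _ (Nat.cast_nonneg _)
        apply mul_le_mul_of_nonneg_left _ (by norm_num)
        exact pow_le_pow_left₀ (Nat.cast_nonneg _) hQE 2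
    _ = 2 * (4 * (L : ℝ) + 14) ^ 2 * ((L : ℝ) ^ 2 * n + 1) ^ 9 *
          (Real.exp (-(β * (R : ℝ))) ^ 3 * E ^ 2) * A.card := by ring
    _ = 2 * (4 * (L : ℝ) + 14) ^ 2 * ((L : ℝ) ^ 2 * n + 1) ^ 9 * Θ ^ (6 * n) * A.card := by
        rw [h2, ← mul_assoc (Real.exp (-(β * (R : ℝ))) ^ 3), h3, one_mul]


/-- lifts on a larger index set -/
lemma lifts_image {κ : Type*} [Fintype κ] [DecidableEq κ] (m : ℕ) [NeZero m] (e : ι ↪ κ)
    (A : Finset ((ι → ZMod m) × (ι → ZMod m))) (hA : Lifts m A) :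
    Lifts m (A.image (Prod.map (Function.ExtendByZero.hom (ZMod m) e)
      (Function.ExtendByZero.hom (ZMod m) e))) := by
  classical
  obtain ⟨φ, ψ, χ, h1, h2, h3, h4⟩ := hA
  let ext : ((ι → ZMod m) → (ι → ℤ)) → (κ → ZMod m) → (κ → ℤ) := fun φ x =>
    Function.extend e (φ (fun i => x (e i))) (std m x)
  have hext : ∀ φ : (ι → ZMod m) → (ι → ℤ), (∀ x, red m (φ x) = x) →
      ∀ x, red m (ext φ x) = x := by
    intro φ hφ x
    funext j
    by_cases hj : ∃ i, e i = j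
    · obtain ⟨i, rfl⟩ := hj
      have := congrFun (hφ fun i => x (e i)) i
      simp only [red, ext, e.injective.extend_apply] at this ⊢
      exact this
    · simp only [red, ext, Function.extend_apply' _ _ _ hj]
      have := congrFun (red_std m x) j
      simpa [red] using this
  refine ⟨ext φ, ext ψ, ext χ, hext φ h1, hext ψ h2, hext χ h3, fun p hp => ?_⟩
  obtain ⟨q, hq, rfl⟩ := mem_image.1 hp
  have hr : ∀ x : ι → ZMod m, (fun i => (Function.ExtendByZero.hom (ZMod m) e x) (e i)) = x := by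
    intro x
    funext i
    simp only [Function.ExtendByZero.hom_apply, e.injective.extend_apply]
  have ho : ∀ (x : ι → ZMod m) (j : κ), (¬ ∃ i, e i = j) →
      std m (Function.ExtendByZero.hom (ZMod m) e x) j = 0 := by
    intro x j hj
    simp [std, Function.ExtendByZero.hom_apply, Function.extend_apply' _ _ _ hj]
  simp only [Prod.map_fst, Prod.map_snd, ← map_add]
  funext j
  by_cases hj : ∃ i, e i = j
  · obtain ⟨i, rfl⟩ := hj
    simp only [ext, hr, Pi.add_apply, e.injective.extend_apply]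
    exact congrFun (h4 q hq) i
  · simp only [ext, Pi.add_apply, Function.extend_apply' _ _ _ hj, ho _ _ hj, add_zero]

open Filter Topology in
/-- **Lower bound with lifts.** For every `c < (√3/2) m²` and all large `n` there is a corner-free set in
`((ℤ/m)^n)²` with at least `c^n` elements. -/
theorem exists_cornerFree_lift (m : ℕ) [NeZero m] (c : ℝ) (hc0 : 0 ≤ c)
    (hc : c < Real.sqrt 3 / 2 * (m : ℝ) ^ 2) :
    ∃ n0 : ℕ, ∀ n, n0 ≤ n → ∃ A : Finset ((Fin n → ZMod m) × (Fin n → ZMod m)),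
      CornerFree A ∧ Lifts m A ∧ c ^ n ≤ A.card := by
  classical
  rcases lt_or_ge c 1 with h1 | h1
  · refine ⟨0, fun n _ => ⟨{(0, 0)}, ?_, ?_, ?_⟩⟩
    · intro x y z h1 h2 _
      simp only [mem_singleton, Prod.mk.injEq] at h1 h2
      have := h2.2
      rw [h1.2, zero_add] at this
      exact this
    · refine ⟨std m, std m, std m, red_std m, red_std m, red_std m, fun p hp => ?_⟩
      rw [mem_singleton] at hp
      subst hp
      funext i
      simp [std]
    · rw [card_singleton]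
      push_cast
      exact pow_le_one₀ hc0 h1.le
  obtain ⟨c', hcc', hc'⟩ := exists_between hc
  have hc'1 : 1 < c' := lt_of_le_of_lt h1 hcc'
  obtain ⟨β, L, hβ, hθ⟩ := exists_param m c' hc'
  set Θ : ℝ := 2 + Real.sqrt (Real.pi / (3 * β / 2)) / m with hΘ
  have hΘ0 : 0 < Θ := by positivity
  -- growth
  set C : ℝ := 2 * (4 * (L : ℝ) + 14) ^ 2 * ((L : ℝ) ^ 2 + 1) ^ 9 * 2 ^ 9 * c' ^ 2 with hC
  have hC0 : 0 < C := by positivity
  have hr : |c / c'| < 1 := by
    rw [abs_of_nonneg (by positivity), div_lt_one (by linarith)]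
    exact hcc'
  have hlim := tendsto_pow_const_mul_const_pow_of_abs_lt_one 9 hr
  have hev := hlim.eventually (gt_mem_nhds (show (0 : ℝ) < 1 / C by positivity))
  obtain ⟨n1, hn1⟩ := eventually_atTop.1 hev
  refine ⟨max n1 1, fun n hn => ?_⟩
  have hn1' := hn1 n ((le_max_left _ _).trans hn)
  have hn' : 1 ≤ n := (le_max_right _ _).trans hn
  set k := n / 3 with hk
  have hk3 : 3 * k ≤ n := Nat.mul_div_le n 3
  have hk4 : n ≤ 3 * k + 2 := by omega
  obtain ⟨A, hA, hAL, hAc⟩ := main_finite_lift m hβ L k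
  -- transfer
  have hcard : Fintype.card (Fin 3 × Fin k) ≤ Fintype.card (Fin n) := by
    simp only [Fintype.card_prod, Fintype.card_fin]
    exact hk3
  obtain ⟨e⟩ := Function.Embedding.nonempty_of_card_le hcard
  let φ : (Fin 3 × Fin k → ZMod m) →+ (Fin n → ZMod m) := Function.ExtendByZero.hom (ZMod m) e
  have hφ : Function.Injective φ := by
    intro f g hfg
    funext i
    have := congrFun hfg (e i)
    simp only [φ, Function.ExtendByZero.hom_apply, e.injective.extend_apply] at this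
    exact this
  refine ⟨A.image (Prod.map φ φ), hA.image φ hφ, lifts_image m e A hAL, ?_⟩
  rw [card_image_of_injective _ (Prod.map_injective.2 ⟨hφ, hφ⟩)]
  -- the estimate
  have h2 : c' ^ (3 * k) * Θ ^ (6 * k) ≤ theta β L ^ (3 * k) := by
    have : c' ^ (3 * k) * Θ ^ (6 * k) = (c' * Θ ^ 2) ^ (3 * k) := by
      rw [mul_pow, ← pow_mul]
      congr 2
      ring
    rw [this]
    exact pow_le_pow_left₀ (by positivity) hθ _
  have h3 := h2.trans hAc
  have h4 : c' ^ (3 * k) ≤ 2 * (4 * (L : ℝ) + 14) ^ 2 * ((L : ℝ) ^ 2 * k + 1) ^ 9 * A.card := by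
    have hpos : 0 < Θ ^ (6 * k) := by positivity
    refine le_of_mul_le_mul_right ?_ hpos
    calc c' ^ (3 * k) * Θ ^ (6 * k) ≤ _ := h3
      _ = _ := by ring
  have h5 : ((L : ℝ) ^ 2 * k + 1) ^ 9 ≤ ((L : ℝ) ^ 2 + 1) ^ 9 * 2 ^ 9 * (n : ℝ) ^ 9 := by
    rw [← mul_pow, ← mul_pow]
    apply pow_le_pow_left₀ (by positivity)
    have a1 : (k : ℝ) ≤ n := by exact_mod_cast Nat.div_le_self n 3
    have a2 : (1 : ℝ) ≤ n := by exact_mod_cast hn'
    have a3 : (0 : ℝ) ≤ (L : ℝ) ^ 2 := by positivity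
    nlinarith
  have h6 : c' ^ n ≤ c' ^ 2 * c' ^ (3 * k) := by
    rw [← pow_add]
    exact pow_le_pow_right₀ hc'1.le (by omega)
  have h7 : c' ^ n ≤ C * (n : ℝ) ^ 9 * A.card := by
    calc c' ^ n ≤ c' ^ 2 * c' ^ (3 * k) := h6
      _ ≤ c' ^ 2 * (2 * (4 * (L : ℝ) + 14) ^ 2 * ((L : ℝ) ^ 2 * k + 1) ^ 9 * A.card) :=
        mul_le_mul_of_nonneg_left h4 (by positivity)
      _ = (c' ^ 2 * (2 * (4 * (L : ℝ) + 14) ^ 2) * A.card) * ((L : ℝ) ^ 2 * k + 1) ^ 9 := by ring
      _ ≤ (c' ^ 2 * (2 * (4 * (L : ℝ) + 14) ^ 2) * A.card) *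
          (((L : ℝ) ^ 2 + 1) ^ 9 * 2 ^ 9 * (n : ℝ) ^ 9) :=
        mul_le_mul_of_nonneg_left h5 (by positivity)
      _ = C * (n : ℝ) ^ 9 * A.card := by rw [hC]; ring
  -- conclusion
  have hc'n : 0 < c' ^ n := by positivity
  have h8 : C * (n : ℝ) ^ 9 * c ^ n ≤ c' ^ n := by
    rw [div_pow, lt_div_iff₀ hC0, ← mul_div_assoc, div_mul_eq_mul_div, div_lt_one hc'n] at hn1'
    calc C * (n : ℝ) ^ 9 * c ^ n = (n : ℝ) ^ 9 * c ^ n * C := by ring
      _ ≤ c' ^ n := hn1'.le
  have h9 := h8.trans h7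
  have h10 : 0 < C * (n : ℝ) ^ 9 := by
    have : (0 : ℝ) < n := by exact_mod_cast hn'
    positivity
  exact le_of_mul_le_mul_left h9 h10

end Pool.Agent.Helper41.Corner
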