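import Pool.Agent.Helper41.Corner.Sym
import Pool.Graph.R_pool_sql_team_seeded_ab47071d.LeadMoved.MP_db4732_co.ThreePartyRank

/-!
# The structure of the solution sets of `φ(x) ψ(y) = χ(x + y)`
-/

set_option autoImplicit false
set_option linter.unusedSectionVars false

namespace Pool.Agent.Helper41.Corner

open Finset

section Struct

variable {G : Type*} [AddCommGroup G] [DecidableEq G] [Fintype G]
variable {H : Type*} [Group H] [DecidableEq H]

/-- the values of `f` taken more than `N / K` times -/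
noncomputable def popular (f : G → H) (K : ℝ) : Finset H :=
  (univ.image f).filter fun a => (Fintype.card G : ℝ) < K * #(univ.filter fun x => f x = a)

lemma card_popular (f : G → H) (K : ℝ) (hK : 0 ≤ K) : (#(popular f K) : ℝ) ≤ K := by
  classical
  have hN : (0 : ℝ) < Fintype.card G := by exact_mod_cast Fintype.card_pos
  have h1 : (#(popular f K) : ℝ) * Fintype.card G ≤ K * Fintype.card G := by
    calc (#(popular f K) : ℝ) * Fintype.card G = ∑ _a ∈ popular f K, (Fintype.card G : ℝ) := by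
          rw [Finset.sum_const, nsmul_eq_mul]
      _ ≤ ∑ a ∈ popular f K, K * #(univ.filter fun x => f x = a) :=
          Finset.sum_le_sum fun a ha => (mem_filter.1 ha).2.le
      _ = K * ∑ a ∈ popular f K, (#(univ.filter fun x => f x = a) : ℝ) := by rw [Finset.mul_sum]
      _ ≤ K * Fintype.card G := by
          refine mul_le_mul_of_nonneg_left ?_ hK
          have h2 : ∑ a ∈ popular f K, #(univ.filter fun x => f x = a) ≤ Fintype.card G := by
            rw [← Finset.card_biUnion]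
            · exact Finset.card_le_univ _
            · intro a _ b _ hab
              refine Finset.disjoint_left.2 fun x hx hx' => hab ?_
              rw [← (mem_filter.1 hx).2, ← (mem_filter.1 hx').2]
          exact_mod_cast h2
  exact le_of_mul_le_mul_right h1 hN

lemma fiber_le (f : G → H) (K : ℝ) (hK : 0 < K) (S : Finset G)
    (hS : ∀ x ∈ S, f x ∉ popular f K) (a : H) :
    Set.ncard {x | x ∈ S ∧ f x = a} ≤ ⌊(Fintype.card G : ℝ) / K⌋₊ := by
  classical
  by_cases h : ∃ x ∈ S, f x = a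
  · obtain ⟨x, hx, rfl⟩ := h
    have h1 := hS x hx
    rw [popular, mem_filter, not_and, not_lt] at h1
    have h2 := h1 (mem_image_of_mem f (mem_univ x))
    refine Nat.le_floor ?_
    rw [le_div_iff₀ hK, mul_comm]
    refine le_trans (mul_le_mul_of_nonneg_left ?_ hK.le) h2
    have h3 : Set.ncard {y | y ∈ S ∧ f y = f x} ≤ #(univ.filter fun y => f y = f x) := by
      rw [← Set.ncard_coe_finset]
      refine Set.ncard_le_ncard (fun y hy => ?_) (Finset.finite_toSet _)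
      exact mem_coe.2 (mem_filter.2 ⟨mem_univ _, hy.2⟩)
    exact_mod_cast h3
  · have : {x | x ∈ S ∧ f x = a} = ∅ := by
      ext x
      simp only [Set.mem_ofPred_eq, Set.mem_empty_iff_false, iff_false]
      rintro ⟨h1, h3⟩
      exact h ⟨x, h1, h3⟩
    rw [this, Set.ncard_empty]
    exact Nat.zero_le _

lemma root_bound (a N K : ℝ) (hK : 0 < K) (h : a ^ 6 ≤ N / K * N ^ 11) :
    a ≤ N ^ 2 * K ^ (-(1 / 6) : ℝ) := by
  have h1 : (N ^ 2 * K ^ (-(1 / 6) : ℝ)) ^ 6 = N / K * N ^ 11 := by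
    rw [mul_pow, ← Real.rpow_natCast (K ^ (-(1 / 6) : ℝ)), ← Real.rpow_mul hK.le]
    have : (-(1 / 6) : ℝ) * ((6 : ℕ) : ℝ) = -1 := by norm_num
    rw [this, Real.rpow_neg_one]
    field_simp
  refine le_of_pow_le_pow_left₀ (n := 6) (by norm_num) (by positivity) ?_
  rw [h1]
  exact h

/-- Few points lie over unpopular values of `φ` or of `ψ`. -/
theorem few_unpopular (hsq : ∀ u v : H, u * u = v * v → u = v) (h2 : ∀ g : G, g + g = 0)
    (A : Finset (G × G)) (φ ψ χ : G → H) (hA : ∀ p ∈ A, φ p.1 * ψ p.2 = χ (p.1 + p.2))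
    (K : ℝ) (hK : 0 < K) :
    (#(A.filter fun p => ¬ (φ p.1 ∈ popular φ K ∧ ψ p.2 ∈ popular ψ K)) : ℝ) ≤
      2 * ((Fintype.card G : ℝ) ^ 2 * K ^ (-(1 / 6) : ℝ)) := by
  classical
  set N := Fintype.card G with hN
  have hr : ∀ B : Finset (G × G), #(rows B) ≤ N := fun B => Finset.card_le_univ _
  have hc : ∀ B : Finset (G × G), #(cols B) ≤ N := fun B => Finset.card_le_univ _
  have hd : ∀ B : Finset (G × G), #(diags B) ≤ N := fun B => Finset.card_le_univ _
  set m := ⌊(N : ℝ) / K⌋₊ with hm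
  have hm' : (m : ℝ) ≤ N / K := Nat.floor_le (by positivity)
  have key : ∀ B : Finset (G × G), #B ^ 6 ≤ m * N ^ 11 →
      (#B : ℝ) ≤ (N : ℝ) ^ 2 * K ^ (-(1 / 6) : ℝ) := by
    intro B hB
    refine root_bound _ _ _ hK ?_
    have : ((#B : ℝ)) ^ 6 ≤ m * (N : ℝ) ^ 11 := by exact_mod_cast hB
    exact this.trans (mul_le_mul_of_nonneg_right hm' (by positivity))
  have h1 : (#(A.filter fun p => φ p.1 ∉ popular φ K) : ℝ) ≤ (N : ℝ) ^ 2 * K ^ (-(1 / 6) : ℝ) := by
    refine key _ (count_all hsq h2 _ φ ψ χ (fun p hp => hA p (mem_filter.1 hp).1) N m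
      (hr _) (hc _) (hd _) (Or.inl fun a => ?_))
    refine fiber_le φ K hK _ (fun x hx => ?_) a
    obtain ⟨p, hp, rfl⟩ := mem_image.1 hx
    exact (mem_filter.1 hp).2
  have h3 : (#(A.filter fun p => ψ p.2 ∉ popular ψ K) : ℝ) ≤ (N : ℝ) ^ 2 * K ^ (-(1 / 6) : ℝ) := by
    refine key _ (count_all hsq h2 _ φ ψ χ (fun p hp => hA p (mem_filter.1 hp).1) N m
      (hr _) (hc _) (hd _) (Or.inr (Or.inl fun a => ?_)))
    refine fiber_le ψ K hK _ (fun x hx => ?_) a
    obtain ⟨p, hp, rfl⟩ := mem_image.1 hx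
    exact (mem_filter.1 hp).2
  have h4 : (A.filter fun p => ¬ (φ p.1 ∈ popular φ K ∧ ψ p.2 ∈ popular ψ K)) ⊆
      (A.filter fun p => φ p.1 ∉ popular φ K) ∪ (A.filter fun p => ψ p.2 ∉ popular ψ K) := by
    intro p hp
    simp only [mem_filter, mem_union] at hp ⊢
    tauto
  have h5 : (#(A.filter fun p => ¬ (φ p.1 ∈ popular φ K ∧ ψ p.2 ∈ popular ψ K)) : ℝ) ≤
      #(A.filter fun p => φ p.1 ∉ popular φ K) + #(A.filter fun p => ψ p.2 ∉ popular ψ K) := by
    exact_mod_cast (Finset.card_le_card h4).trans (Finset.card_union_le _ _)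
  linarith

/-- the points of `A` over `(a, b)` -/
def piece (A : Finset (G × G)) (φ ψ : G → H) (a b : H) : Finset (G × G) :=
  A.filter fun p => φ p.1 = a ∧ ψ p.2 = b

lemma card_le_pieces (hsq : ∀ u v : H, u * u = v * v → u = v) (h2 : ∀ g : G, g + g = 0)
    (A : Finset (G × G)) (φ ψ χ : G → H) (hA : ∀ p ∈ A, φ p.1 * ψ p.2 = χ (p.1 + p.2))
    (K : ℝ) (hK : 0 < K) (c : ℝ) (hc0 : 0 ≤ c) (hc : ∀ a b, (#(piece A φ ψ a b) : ℝ) ≤ c) :
    (#A : ℝ) ≤ 2 * ((Fintype.card G : ℝ) ^ 2 * K ^ (-(1 / 6) : ℝ)) + K ^ 2 * c := by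
  classical
  have h1 := few_unpopular hsq h2 A φ ψ χ hA K hK
  have h3 := card_filter_add_card_filter_not (s := A)
    (fun p => φ p.1 ∈ popular φ K ∧ ψ p.2 ∈ popular ψ K)
  have h4 : (#(A.filter fun p => φ p.1 ∈ popular φ K ∧ ψ p.2 ∈ popular ψ K) : ℝ) ≤ K ^ 2 * c := by
    have h5 : (A.filter fun p => φ p.1 ∈ popular φ K ∧ ψ p.2 ∈ popular ψ K) ⊆
        (popular φ K ×ˢ popular ψ K).biUnion fun q => piece A φ ψ q.1 q.2 := by
      intro p hp
      rw [mem_filter] at hp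
      exact mem_biUnion.2 ⟨(φ p.1, ψ p.2), mem_product.2 hp.2, mem_filter.2 ⟨hp.1, rfl, rfl⟩⟩
    have h6 : (#(A.filter fun p => φ p.1 ∈ popular φ K ∧ ψ p.2 ∈ popular ψ K) : ℝ) ≤
        ∑ q ∈ popular φ K ×ˢ popular ψ K, (#(piece A φ ψ q.1 q.2) : ℝ) := by
      exact_mod_cast (Finset.card_le_card h5).trans Finset.card_biUnion_le
    refine h6.trans ((Finset.sum_le_sum fun q _ => hc q.1 q.2).trans ?_)
    rw [Finset.sum_const, nsmul_eq_mul, Finset.card_product, sq]
    push_cast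
    refine mul_le_mul_of_nonneg_right ?_ hc0
    exact mul_le_mul (card_popular φ K hK.le) (card_popular ψ K hK.le) (Nat.cast_nonneg _) hK.le
  have h7 : (#A : ℝ) = #(A.filter fun p => φ p.1 ∈ popular φ K ∧ ψ p.2 ∈ popular ψ K) +
      #(A.filter fun p => ¬ (φ p.1 ∈ popular φ K ∧ ψ p.2 ∈ popular ψ K)) := by
    exact_mod_cast h3.symm
  rw [h7]
  linarith

/-- **A popular piece.** -/
theorem exists_piece (hsq : ∀ u v : H, u * u = v * v → u = v) (h2 : ∀ g : G, g + g = 0)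
    (A : Finset (G × G)) (φ ψ χ : G → H) (hA : ∀ p ∈ A, φ p.1 * ψ p.2 = χ (p.1 + p.2))
    (δ : ℝ) (hδ : 0 < δ) (hδA : δ * (Fintype.card G : ℝ) ^ 2 ≤ #A) :
    ∃ a b, (δ / 4) ^ 13 * (Fintype.card G : ℝ) ^ 2 ≤ #(piece A φ ψ a b) := by
  classical
  by_contra hcon
  push Not at hcon
  set N : ℝ := (Fintype.card G : ℝ) with hN
  have hN0 : (0 : ℝ) < N := by rw [hN]; exact_mod_cast Fintype.card_pos
  set K : ℝ := (4 / δ) ^ 6 with hK
  have hK0 : 0 < K := by positivity
  have h1 := card_le_pieces hsq h2 A φ ψ χ hA K hK0 ((δ / 4) ^ 13 * N ^ 2) (by positivity)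
    (fun a b => (hcon a b).le)
  have h3 : K ^ (-(1 / 6) : ℝ) = δ / 4 := by
    rw [hK, ← Real.rpow_natCast, ← Real.rpow_mul (by positivity)]
    have : ((6 : ℕ) : ℝ) * (-(1 / 6) : ℝ) = -1 := by norm_num
    rw [this, Real.rpow_neg_one, inv_div]
  have h4 : K ^ 2 * ((δ / 4) ^ 13 * N ^ 2) = δ / 4 * N ^ 2 := by
    rw [hK]
    field_simp
  rw [h3, h4] at h1
  have h5 : 0 < δ * N ^ 2 := by positivity
  nlinarith

end Struct

/-! ### corner-free solution sets -/

section CF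

variable {H : Type*} [Group H]

/-- `F_2^n` -/
abbrev V (n : ℕ) := Fin n → ZMod 2

/-- no nontrivial corner -/
def CornerFree {n : ℕ} (A : Finset (V n × V n)) : Prop :=
  ∀ x y z : V n, (x, y) ∈ A → (x, y + z) ∈ A → (x + z, y) ∈ A → z = 0

lemma add_self_V {n : ℕ} (x : V n) : x + x = 0 := by
  funext i
  exact CharTwo.add_self_eq_zero (x i)

lemma card_V (n : ℕ) : Fintype.card (V n) = 2 ^ n := by simp [V, ZMod.card]

/-- corner-free boxes are small (slice rank) -/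
theorem box_small {n : ℕ} (X Y Z : Finset (V n)) (B : Finset (V n × V n)) (hB : CornerFree B)
    (hXYZ : ∀ x y, (x, y) ∈ B ↔ x ∈ X ∧ y ∈ Y ∧ x + y ∈ Z) :
    (#B : ℝ) ≤ 3 * (4 : ℝ) ^ ((1 - 0.04 : ℝ) * n) := by
  classical
  have := Pool.Agent.Results.MP_db4732_co.ThreePartyRank.result n 1 1 1 (ZMod 2) B
    (fun _ x y => (if x ∈ X then 1 else 0) * (if y ∈ Y then 1 else 0) * (if x + y ∈ Z then 1 else 0))
    (fun x y z hz hc => hz (hB x y z hc.1 hc.2.1 hc.2.2))
    (fun _ => ⟨fun _ _ x => if x ∈ X then 1 else 0, fun _ _ y => if y ∈ Y then 1 else 0,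
      fun _ w => if w ∈ Z then 1 else 0, fun x y => by simp⟩)
    (fun x y => by
      rw [hXYZ]
      simp only [exists_const]
      by_cases h1 : x ∈ X <;> by_cases h2 : y ∈ Y <;> by_cases h3 : x + y ∈ Z <;>
        simp [h1, h2, h3])
  refine this.1.trans ?_
  norm_num at this ⊢
  exact this.2

/-- **Corner-free solution sets.** -/
theorem cornerFree_small (hsq : ∀ u v : H, u * u = v * v → u = v) {n : ℕ}
    (E : Finset (V n × V n)) (φ ψ χ : V n → H)
    (hE : ∀ x y, (x, y) ∈ E ↔ φ x * ψ y = χ (x + y)) (hc : CornerFree E) :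
    (#E : ℝ) ≤ 5 * (4 : ℝ) ^ ((1 - 0.003 : ℝ) * n) := by
  classical
  set K : ℝ := (4 : ℝ) ^ (0.018 * (n : ℝ)) with hK
  have hK0 : 0 < K := by positivity
  have h1 := card_le_pieces hsq add_self_V E φ ψ χ (fun p hp => (hE p.1 p.2).1 hp) K hK0
    (3 * (4 : ℝ) ^ ((1 - 0.04 : ℝ) * n)) (by positivity) (fun a b => by
      refine box_small (univ.filter fun x => φ x = a) (univ.filter fun y => ψ y = b)
        (univ.filter fun s => χ s = a * b) (piece E φ ψ a b) ?_ ?_
      · intro x y z h1 h2 h3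
        exact hc x y z (mem_filter.1 h1).1 (mem_filter.1 h2).1 (mem_filter.1 h3).1
      · intro x y
        simp only [piece, mem_filter, mem_univ, true_and, hE]
        constructor
        · rintro ⟨h1, rfl, rfl⟩
          exact ⟨rfl, rfl, h1.symm⟩
        · rintro ⟨rfl, rfl, h3⟩
          exact ⟨h3.symm, rfl, rfl⟩)
  have e1 : ((Fintype.card (V n) : ℕ) : ℝ) ^ 2 = 4 ^ n := by
    rw [card_V]; push_cast; rw [← pow_mul, mul_comm, pow_mul]; norm_num
  have e2 : (4 : ℝ) ^ n * K ^ (-(1 / 6) : ℝ) = (4 : ℝ) ^ ((1 - 0.003 : ℝ) * n) := by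
    rw [hK, ← Real.rpow_mul (by norm_num), ← Real.rpow_natCast 4 n, ← Real.rpow_add (by norm_num)]
    congr 1; ring
  have e3 : K ^ 2 * (3 * (4 : ℝ) ^ ((1 - 0.04 : ℝ) * n)) = 3 * (4 : ℝ) ^ ((1 - 0.004 : ℝ) * n) := by
    rw [hK, ← Real.rpow_natCast ((4 : ℝ) ^ (0.018 * (n : ℝ))), ← Real.rpow_mul (by norm_num),
      mul_left_comm, ← Real.rpow_add (by norm_num)]
    congr 2; push_cast; ring
  have e4 : (4 : ℝ) ^ ((1 - 0.004 : ℝ) * n) ≤ (4 : ℝ) ^ ((1 - 0.003 : ℝ) * n) := by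
    refine Real.rpow_le_rpow_of_exponent_le (by norm_num) ?_
    have : (0 : ℝ) ≤ n := Nat.cast_nonneg n
    nlinarith
  rw [e1, e2, e3] at h1
  linarith

end CF

end Pool.Agent.Helper41.Corner
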