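import Pool.Agent.Helper41.Corner.Upper

/-!
# Symmetric forms of the count, and the structure theorem
-/

set_option autoImplicit false
set_option linter.unusedSectionVars false

namespace Pool.Agent.Helper41.Corner

open Finset

variable {G : Type*} [AddCommGroup G] [DecidableEq G]
variable {H : Type*} [Group H]

/-- the rows met by `A` -/
def rows (A : Finset (G × G)) : Finset G := A.image Prod.fst
/-- the columns met by `A` -/
def cols (A : Finset (G × G)) : Finset G := A.image Prod.snd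
/-- the diagonals `x + y = const` met by `A` -/
def diags (A : Finset (G × G)) : Finset G := A.image fun p => p.1 + p.2

theorem count_psi (hsq : ∀ u v : H, u * u = v * v → u = v) (h2 : ∀ g : G, g + g = 0)
    (A : Finset (G × G)) (φ ψ χ : G → H) (hA : ∀ p ∈ A, φ p.1 * ψ p.2 = χ (p.1 + p.2))
    (m : ℕ) (hm : ∀ a, Set.ncard {y | y ∈ cols A ∧ ψ y = a} ≤ m) :
    #A ^ 6 ≤ m * (#(rows A) ^ 4 * #(cols A) ^ 4 * #(diags A) ^ 3) :=
  count_snd hsq h2 A φ ψ χ hA m fun g _ => hm (ψ g)

theorem count_phi (hsq : ∀ u v : H, u * u = v * v → u = v) (h2 : ∀ g : G, g + g = 0)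
    (A : Finset (G × G)) (φ ψ χ : G → H) (hA : ∀ p ∈ A, φ p.1 * ψ p.2 = χ (p.1 + p.2))
    (m : ℕ) (hm : ∀ a, Set.ncard {x | x ∈ rows A ∧ φ x = a} ≤ m) :
    #A ^ 6 ≤ m * (#(rows A) ^ 4 * #(cols A) ^ 4 * #(diags A) ^ 3) := by
  classical
  set B : Finset (G × G) := A.image Prod.swap with hB
  have hr : rows B = cols A := by
    rw [rows, cols, hB, image_image]; rfl
  have hc : cols B = rows A := by
    rw [rows, cols, hB, image_image]; rfl
  have hd : diags B = diags A := by
    rw [diags, diags, hB, image_image]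
    refine Finset.image_congr fun p _ => ?_
    simp [add_comm]
  have hcard : #B = #A := card_image_of_injective _ Prod.swap_injective
  have h := count_psi hsq h2 B (fun y => (ψ y)⁻¹) (fun x => (φ x)⁻¹) (fun s => (χ s)⁻¹) ?_ m ?_
  · rw [hcard, hr, hc, hd] at h
    refine h.trans (le_of_eq ?_)
    ring
  · intro p hp
    obtain ⟨q, hq, rfl⟩ := mem_image.1 hp
    have := hA q hq
    simp only [Prod.fst_swap, Prod.snd_swap]
    rw [← mul_inv_rev, this, add_comm]
  · intro a
    rw [hc]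
    refine le_trans (le_of_eq ?_) (hm a⁻¹)
    congr 1
    ext x
    simp only [Set.mem_ofPred_eq]
    constructor
    · rintro ⟨h1, h3⟩; exact ⟨h1, by rw [← h3, inv_inv]⟩
    · rintro ⟨h1, h3⟩; exact ⟨h1, by rw [h3, inv_inv]⟩

theorem count_chi (hsq : ∀ u v : H, u * u = v * v → u = v) (h2 : ∀ g : G, g + g = 0)
    (A : Finset (G × G)) (φ ψ χ : G → H) (hA : ∀ p ∈ A, φ p.1 * ψ p.2 = χ (p.1 + p.2))
    (m : ℕ) (hm : ∀ a, Set.ncard {s | s ∈ diags A ∧ χ s = a} ≤ m) :
    #A ^ 6 ≤ m * (#(rows A) ^ 4 * #(diags A) ^ 4 * #(cols A) ^ 3) := by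
  classical
  have h2' : ∀ x y : G, x + (x + y) = y := fun x y => by rw [← add_assoc, h2, zero_add]
  set B : Finset (G × G) := A.image (fun p => (p.1, p.1 + p.2)) with hB
  have hinj : Function.Injective (fun p : G × G => (p.1, p.1 + p.2)) := by
    rintro ⟨a, b⟩ ⟨c, d⟩ h
    simp only [Prod.mk.injEq] at h
    obtain ⟨rfl, h⟩ := h
    rw [add_left_cancel h]
  have hr : rows B = rows A := by
    rw [rows, rows, hB, image_image]; rfl
  have hc : cols B = diags A := by
    rw [cols, diags, hB, image_image]; rfl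
  have hd : diags B = cols A := by
    rw [diags, cols, hB, image_image]
    refine Finset.image_congr fun p _ => ?_
    simp only [Function.comp]
    exact h2' _ _
  have hcard : #B = #A := card_image_of_injective _ hinj
  have h := count_psi hsq h2 B (fun x => (φ x)⁻¹) χ ψ ?_ m ?_
  · rw [hcard, hr, hc, hd] at h
    exact h
  · intro p hp
    obtain ⟨q, hq, rfl⟩ := mem_image.1 hp
    have := hA q hq
    simp only [h2']
    rw [← this]; group
  · intro a
    rw [hc]
    exact hm a

/-- all three forms together -/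
theorem count_all (hsq : ∀ u v : H, u * u = v * v → u = v) (h2 : ∀ g : G, g + g = 0)
    (A : Finset (G × G)) (φ ψ χ : G → H) (hA : ∀ p ∈ A, φ p.1 * ψ p.2 = χ (p.1 + p.2))
    (N m : ℕ) (hr : #(rows A) ≤ N) (hc : #(cols A) ≤ N) (hd : #(diags A) ≤ N)
    (hm : (∀ a, Set.ncard {x | x ∈ rows A ∧ φ x = a} ≤ m) ∨
      (∀ a, Set.ncard {x | x ∈ cols A ∧ ψ x = a} ≤ m) ∨
      (∀ a, Set.ncard {x | x ∈ diags A ∧ χ x = a} ≤ m)) :
    #A ^ 6 ≤ m * N ^ 11 := by
  have e : N ^ 11 = N ^ 4 * N ^ 4 * N ^ 3 := by ring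
  rw [e]
  rcases hm with hm | hm | hm
  · refine (count_phi hsq h2 A φ ψ χ hA m hm).trans ?_
    gcongr
  · refine (count_psi hsq h2 A φ ψ χ hA m hm).trans ?_
    gcongr
  · refine (count_chi hsq h2 A φ ψ χ hA m hm).trans ?_
    gcongr

end Pool.Agent.Helper41.Corner
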