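import Mathlib

/-!
# Sets of pairs with lifts to a group without 2-torsion: the Katz–Tao count

`G` is an elementary abelian 2-group, `A ⊆ G × G` finite, and `φ(x) ψ(y) = χ(x + y)` for all
`(x, y) ∈ A`, where `φ, ψ, χ` take their values in a group in which squaring is injective.
-/

set_option autoImplicit false
set_option linter.unusedSectionVars false

namespace Pool.Agent.Helper41.Corner

open Finset

/-! ### a three-fold counting inequality -/

section Triple

variable {α β γ : Type*} [DecidableEq α] [DecidableEq β] [DecidableEq γ]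

/-- sum over `v ∈ V` of the reciprocal of the size of the fibre of `v` -/
lemma sum_inv_fiber (V : Finset α) (f : α → β) :
    ∑ v ∈ V, (1 : ℝ) / #(V.filter fun u => f u = f v) = #(V.image f) := by
  classical
  rw [← Finset.sum_fiberwise_of_maps_to (g := f) (t := V.image f)
    (fun x hx => mem_image_of_mem f hx)]
  rw [Finset.card_eq_sum_ones, Nat.cast_sum]
  refine Finset.sum_congr rfl fun b hb => ?_
  obtain ⟨a, ha, rfl⟩ := mem_image.1 hb
  have h1 : ∀ v ∈ V.filter (fun u => f u = f a),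
      (1 : ℝ) / #(V.filter fun u => f u = f v) = 1 / #(V.filter fun u => f u = f a) := by
    intro v hv
    rw [(mem_filter.1 hv).2]
  rw [Finset.sum_congr rfl h1, Finset.sum_const, nsmul_eq_mul]
  have h2 : (0 : ℝ) < #(V.filter fun u => f u = f a) := by
    have : a ∈ V.filter (fun u => f u = f a) := mem_filter.2 ⟨ha, rfl⟩
    exact_mod_cast Finset.card_pos.2 ⟨a, this⟩
  field_simp
  simp

lemma amgm_aux (p q : ℝ) (hp : 0 < p) (hq : 0 < q) : p * q * (3 - p - q) ≤ 1 := by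
  nlinarith [sq_nonneg (p - q), sq_nonneg (p + q - 2), mul_pos hp hq,
    mul_nonneg (add_pos hp hq).le (sq_nonneg (p - q)),
    mul_nonneg (add_pos hp hq).le (sq_nonneg (p + q - 2))]

/-- `(#V)^3 ≤ (number of values of f)(number of values of g) ·
  #{(v, u, w) : f u = f v, g w = g v}`. -/
lemma triple_count (V : Finset α) (f : α → β) (g : α → γ) (F G : ℕ)
    (hF : #(V.image f) ≤ F) (hG : #(V.image g) ≤ G) :
    #V ^ 3 ≤ F * G * ∑ v ∈ V, #(V.filter fun u => f u = f v) * #(V.filter fun u => g u = g v) := by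
  classical
  rcases V.eq_empty_or_nonempty with rfl | hne
  · simp
  have hV : (0 : ℝ) < #V := by exact_mod_cast Finset.card_pos.2 hne
  have hF0 : (0 : ℝ) < F := by
    have : 0 < #(V.image f) := Finset.card_pos.2 (hne.image f)
    exact_mod_cast lt_of_lt_of_le this hF
  have hG0 : (0 : ℝ) < G := by
    have : 0 < #(V.image g) := Finset.card_pos.2 (hne.image g)
    exact_mod_cast lt_of_lt_of_le this hG
  have key : ∀ v ∈ V, (3 : ℝ) ≤
      (F * G / (#V : ℝ) ^ 2) * (#(V.filter fun u => f u = f v) * #(V.filter fun u => g u = g v))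
      + (#V / F) * (1 / #(V.filter fun u => f u = f v))
      + (#V / G) * (1 / #(V.filter fun u => g u = g v)) := by
    intro v hv
    have ha : (0 : ℝ) < (#(V.filter fun u => f u = f v) : ℝ) :=
      Nat.cast_pos.2 (Finset.card_pos.2 ⟨v, mem_filter.2 ⟨hv, rfl⟩⟩)
    have hb : (0 : ℝ) < (#(V.filter fun u => g u = g v) : ℝ) :=
      Nat.cast_pos.2 (Finset.card_pos.2 ⟨v, mem_filter.2 ⟨hv, rfl⟩⟩)
    generalize (#(V.filter fun u => f u = f v) : ℝ) = a at ha ⊢
    generalize (#(V.filter fun u => g u = g v) : ℝ) = b at hb ⊢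
    generalize (#V : ℝ) = N at hV ⊢
    have hp : 0 < N / F * (1 / a) := by positivity
    have hq : 0 < N / G * (1 / b) := by positivity
    have h := amgm_aux _ _ hp hq
    have e : (F * G / N ^ 2) * (a * b) * ((N / F * (1 / a)) * (N / G * (1 / b))) = 1 := by
      field_simp
    have hpq : 0 < (N / F * (1 / a)) * (N / G * (1 / b)) := mul_pos hp hq
    have h3 : 3 - N / F * (1 / a) - N / G * (1 / b) ≤ (F * G / N ^ 2) * (a * b) := by
      by_contra hc
      push Not at hc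
      have := mul_lt_mul_of_pos_left hc hpq
      nlinarith
    linarith
  have h1 := Finset.sum_le_sum key
  rw [Finset.sum_const, nsmul_eq_mul, Finset.sum_add_distrib, Finset.sum_add_distrib,
    ← Finset.mul_sum, ← Finset.mul_sum, ← Finset.mul_sum, sum_inv_fiber, sum_inv_fiber] at h1
  set T : ℝ := ∑ v ∈ V, (#(V.filter fun u => f u = f v) : ℝ) * #(V.filter fun u => g u = g v)
  have h2 : (#V / F : ℝ) * #(V.image f) ≤ #V := by
    have : (#(V.image f) : ℝ) ≤ F := by exact_mod_cast hF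
    calc (#V / F : ℝ) * #(V.image f) ≤ #V / F * F := by gcongr
      _ = #V := by field_simp
  have h3 : (#V / G : ℝ) * #(V.image g) ≤ #V := by
    have : (#(V.image g) : ℝ) ≤ G := by exact_mod_cast hG
    calc (#V / G : ℝ) * #(V.image g) ≤ #V / G * G := by gcongr
      _ = #V := by field_simp
  have h4 : (#V : ℝ) ≤ F * G / (#V : ℝ) ^ 2 * T := by linarith
  have h5 : (#V : ℝ) ^ 3 ≤ F * G * T := by
    have := mul_le_mul_of_nonneg_left h4 (by positivity : (0 : ℝ) ≤ (#V : ℝ) ^ 2)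
    calc (#V : ℝ) ^ 3 = (#V : ℝ) ^ 2 * #V := by ring
      _ ≤ (#V : ℝ) ^ 2 * (F * G / (#V : ℝ) ^ 2 * T) := this
      _ = F * G * T := by field_simp
  have h6 : (T : ℝ) = ((∑ v ∈ V, #(V.filter fun u => f u = f v) *
      #(V.filter fun u => g u = g v) : ℕ) : ℝ) := by
    push_cast; rfl
  rw [h6] at h5
  exact_mod_cast h5

end Triple

/-! ### the count -/

section Count

variable {G : Type*} [AddCommGroup G] [DecidableEq G]
variable {H : Type*} [Group H]

/-- pairs of points of `A` in the same row, as `(x, y, y')` -/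
def cherries (A : Finset (G × G)) : Finset (G × G × G) :=
  (A.image Prod.fst ×ˢ A.image Prod.snd ×ˢ A.image Prod.snd).filter
    fun t => (t.1, t.2.1) ∈ A ∧ (t.1, t.2.2) ∈ A

lemma mem_cherries (A : Finset (G × G)) (t : G × G × G) :
    t ∈ cherries A ↔ (t.1, t.2.1) ∈ A ∧ (t.1, t.2.2) ∈ A := by
  unfold cherries
  simp only [mem_filter, mem_product, mem_image, Prod.exists, exists_and_right, exists_eq_right]
  constructor
  · rintro ⟨_, h⟩; exact h
  · rintro ⟨h1, h2⟩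
    exact ⟨⟨⟨_, h1⟩, ⟨_, h1⟩, ⟨_, h2⟩⟩, h1, h2⟩

/-- Cauchy–Schwarz -/
lemma sq_le_cherries (A : Finset (G × G)) :
    #A ^ 2 ≤ #(A.image Prod.fst) * #(cherries A) := by
  classical
  have h1 : #A = ∑ x ∈ A.image Prod.fst, #(A.filter fun p => p.1 = x) :=
    Finset.card_eq_sum_card_fiberwise fun p hp => mem_coe.2 (mem_image_of_mem _ hp)
  have h2 : #(cherries A) = ∑ x ∈ A.image Prod.fst, #(A.filter fun p => p.1 = x) ^ 2 := by
    rw [Finset.card_eq_sum_card_fiberwise (f := fun t : G × G × G => t.1) (t := A.image Prod.fst)]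
    · refine Finset.sum_congr rfl fun x _ => ?_
      rw [sq, ← Finset.card_product]
      refine Finset.card_bij' (fun t _ => ((t.1, t.2.1), (t.1, t.2.2)))
        (fun q _ => (q.1.1, q.1.2, q.2.2)) ?_ ?_ ?_ ?_
      · rintro ⟨a, b, c⟩ ht
        simp only [mem_filter, mem_cherries, mem_product] at ht ⊢
        exact ⟨⟨ht.1.1, ht.2⟩, ht.1.2, ht.2⟩
      · rintro ⟨⟨a, b⟩, c, d⟩ ht
        simp only [mem_filter, mem_cherries, mem_product] at ht ⊢
        obtain ⟨⟨h1, rfl⟩, h2, rfl⟩ := ht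
        exact ⟨⟨h1, h2⟩, rfl⟩
      · rintro ⟨a, b, c⟩ ht; rfl
      · rintro ⟨⟨a, b⟩, c, d⟩ ht
        simp only [mem_filter, mem_product] at ht ⊢
        obtain ⟨⟨h1, rfl⟩, h2, rfl⟩ := ht
        rfl
    · rintro ⟨a, b, c⟩ ht
      have := ((mem_cherries A _).1 (mem_coe.1 ht)).1
      exact mem_coe.2 (mem_image.2 ⟨_, this, rfl⟩)
  rw [h1, h2]
  exact sq_sum_le_card_mul_sum_sq

/-- the configurations counted -/
def configs (A : Finset (G × G)) : Finset ((G × G × G) × (G × G × G) × (G × G × G)) :=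
  (cherries A ×ˢ cherries A ×ˢ cherries A).filter
    fun t => (t.2.1.2.1 = t.1.2.1 ∧ t.2.1.2.2 = t.1.2.2) ∧
      (t.2.2.2.1 = t.1.2.1 ∧ t.2.2.1 + t.2.2.2.2 = t.1.1 + t.1.2.2)

lemma cherries_le_configs (A : Finset (G × G)) :
    #(cherries A) ^ 3 ≤ (#(A.image Prod.snd) * #(A.image Prod.snd)) *
      (#(A.image Prod.snd) * #(A.image fun p => p.1 + p.2)) * #(configs A) := by
  classical
  have h := triple_count (cherries A) (fun t => (t.2.1, t.2.2)) (fun t => (t.2.1, t.1 + t.2.2))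
    (#(A.image Prod.snd) * #(A.image Prod.snd))
    (#(A.image Prod.snd) * #(A.image fun p => p.1 + p.2)) ?_ ?_
  · refine h.trans (le_of_eq ?_)
    congr 1
    have h2 : #(configs A) = ∑ v ∈ cherries A, #((configs A).filter fun t => t.1 = v) := by
      refine Finset.card_eq_sum_card_fiberwise fun t ht => ?_
      have := (mem_filter.1 (mem_coe.1 ht)).1
      exact mem_coe.2 (mem_product.1 this).1
    rw [h2]
    refine Finset.sum_congr rfl fun v hv => ?_
    rw [← Finset.card_product]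
    refine Finset.card_bij' (fun q _ => (v, q.1, q.2)) (fun t _ => t.2) ?_ ?_ ?_ ?_
    · rintro ⟨a, b⟩ ht
      simp only [mem_filter, mem_product, configs, Prod.mk.injEq] at ht ⊢
      tauto
    · rintro ⟨a, b, c⟩ ht
      simp only [mem_filter, mem_product, configs, Prod.mk.injEq] at ht ⊢
      obtain ⟨⟨⟨h1, h2, h3⟩, h4, h5⟩, rfl⟩ := ht
      tauto
    · rintro ⟨a, b⟩ ht; rfl
    · rintro ⟨a, b, c⟩ ht
      simp only [mem_filter] at ht
      rw [ht.2]
  · rw [← Finset.card_product]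
    refine Finset.card_le_card fun q hq => ?_
    obtain ⟨t, ht, rfl⟩ := mem_image.1 hq
    rw [mem_cherries] at ht
    exact mem_product.2 ⟨mem_image.2 ⟨_, ht.1, rfl⟩, mem_image.2 ⟨_, ht.2, rfl⟩⟩
  · rw [← Finset.card_product]
    refine Finset.card_le_card fun q hq => ?_
    obtain ⟨t, ht, rfl⟩ := mem_image.1 hq
    rw [mem_cherries] at ht
    exact mem_product.2 ⟨mem_image.2 ⟨_, ht.1, rfl⟩, mem_image.2 ⟨_, ht.2, rfl⟩⟩

/-- the four data which determine `ψ(y)` -/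
def data (t : (G × G × G) × (G × G × G) × (G × G × G)) : G × G × G × G :=
  (t.1.1, t.2.1.1 + t.2.1.2.1, t.2.1.1 + t.2.1.2.2, t.2.2.2.2)

lemma psi_eq (hsq : ∀ u v : H, u * u = v * v → u = v) (h2 : ∀ g : G, g + g = 0)
    (A : Finset (G × G)) (φ ψ χ : G → H) (hA : ∀ p ∈ A, φ p.1 * ψ p.2 = χ (p.1 + p.2))
    (s t : (G × G × G) × (G × G × G) × (G × G × G)) (hs : s ∈ configs A) (ht : t ∈ configs A)
    (hd : data s = data t) :
    ψ s.1.2.1 = ψ t.1.2.1 ∧ (s.1.2.1 = t.1.2.1 → s = t) := by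
  obtain ⟨⟨x, y, y'⟩, ⟨x1, y1, y1'⟩, ⟨x2, y2, w⟩⟩ := s
  obtain ⟨⟨a, b, b'⟩, ⟨a1, b1, b1'⟩, ⟨a2, b2, v⟩⟩ := t
  simp only [configs, mem_filter, mem_product, mem_cherries, data, Prod.mk.injEq] at hs ht hd ⊢
  obtain ⟨⟨⟨s1, s2⟩, ⟨s3, s4⟩, ⟨s5, s6⟩⟩, ⟨rfl, rfl⟩, rfl, s7⟩ := hs
  obtain ⟨⟨⟨t1, t2⟩, ⟨t3, t4⟩, ⟨t5, t6⟩⟩, ⟨rfl, rfl⟩, rfl, t7⟩ := ht
  obtain ⟨rfl, d1, d2, rfl⟩ := hd
  -- the relations
  have S2 := hA _ s2
  have S3 := hA _ s3
  have S4 := hA _ s4
  have S5 := hA _ s5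
  have S6 := hA _ s6
  have T2 := hA _ t2
  have T3 := hA _ t3
  have T4 := hA _ t4
  have T5 := hA _ t5
  have T6 := hA _ t6
  simp only at S2 S3 S4 S5 S6 T2 T3 T4 T5 T6
  -- group elements
  have neg : ∀ g : G, -g = g := fun g => neg_eq_of_add_eq_zero_left (h2 g)
  have e1 : x2 + y2 = a2 + b2 := by
    have hx2 : x2 = x + y1' + w := by
      have := congrArg (· + w) s7
      simp only [add_assoc, h2, add_zero] at this
      rw [this]; abel
    have ha2 : a2 = x + b1' + w := by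
      have := congrArg (· + w) t7
      simp only [add_assoc, h2, add_zero] at this
      rw [this]; abel
    have hy : y1' + y2 = b1' + b2 := by
      have h3 : (x1 + y2) + (x1 + y1') = (a1 + b2) + (a1 + b1') := by rw [d1, d2]
      have h4 : (x1 + y2) + (x1 + y1') = (x1 + x1) + (y1' + y2) := by abel
      have h5 : (a1 + b2) + (a1 + b1') = (a1 + a1) + (b1' + b2) := by abel
      rw [h4, h5, h2, h2, zero_add, zero_add] at h3
      exact h3
    rw [hx2, ha2]
    calc x + y1' + w + y2 = x + w + (y1' + y2) := by abel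
      _ = x + w + (b1' + b2) := by rw [hy]
      _ = _ := by abel
  have k1 : (ψ y2)⁻¹ * ψ y1' = (ψ b2)⁻¹ * ψ b1' := by
    have u1 : (ψ y2)⁻¹ * ψ y1' = (χ (x1 + y2))⁻¹ * χ (x1 + y1') := by
      rw [← S3, ← S4]; group
    have u2 : (ψ b2)⁻¹ * ψ b1' = (χ (a1 + b2))⁻¹ * χ (a1 + b1') := by
      rw [← T3, ← T4]; group
    rw [u1, u2, d1, d2]
  -- `ψ(y) κ ψ(w)⁻¹ ψ(y) = φ(x)⁻¹ ρ`
  have c1 : ψ y2 * ((ψ y2)⁻¹ * ψ y1' * (ψ w)⁻¹) * ψ y2 = (φ x)⁻¹ * χ (x2 + y2) := by
    have : φ x * ψ y1' = φ x2 * ψ w := by rw [S2, S6, s7]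
    have h3 : ψ y1' = (φ x)⁻¹ * (φ x2 * ψ w) := by rw [← this]; group
    rw [← S5, h3]; group
  have c2 : ψ b2 * ((ψ b2)⁻¹ * ψ b1' * (ψ w)⁻¹) * ψ b2 = (φ x)⁻¹ * χ (a2 + b2) := by
    have : φ x * ψ b1' = φ a2 * ψ w := by rw [T2, T6, t7]
    have h3 : ψ b1' = (φ x)⁻¹ * (φ a2 * ψ w) := by rw [← this]; group
    rw [← T5, h3]; group
  rw [k1] at c1
  set μ : H := (ψ b2)⁻¹ * ψ b1' * (ψ w)⁻¹ with hμ
  have c3 : ψ y2 * μ * ψ y2 = ψ b2 * μ * ψ b2 := by rw [c1, c2, e1]
  have c4 : (μ * ψ y2) * (μ * ψ y2) = (μ * ψ b2) * (μ * ψ b2) := by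
    calc (μ * ψ y2) * (μ * ψ y2) = μ * (ψ y2 * μ * ψ y2) := by group
      _ = μ * (ψ b2 * μ * ψ b2) := by rw [c3]
      _ = _ := by group
  have c5 := mul_left_cancel (hsq _ _ c4)
  refine ⟨c5, ?_⟩
  rintro rfl
  have f1 : x1 = a1 := add_right_cancel d1
  subst f1
  have f2 : y1' = b1' := add_left_cancel d2
  subst f2
  have f3 : x2 = a2 := add_right_cancel e1
  subst f3
  simp

lemma configs_le (hsq : ∀ u v : H, u * u = v * v → u = v) (h2 : ∀ g : G, g + g = 0)
    (A : Finset (G × G)) (φ ψ χ : G → H) (hA : ∀ p ∈ A, φ p.1 * ψ p.2 = χ (p.1 + p.2))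
    (m : ℕ) (hm : ∀ g ∈ A.image Prod.snd, Set.ncard {y | y ∈ A.image Prod.snd ∧ ψ y = ψ g} ≤ m) :
    #(configs A) ≤ m * (#(A.image Prod.fst) * (#(A.image fun p => p.1 + p.2) *
      (#(A.image fun p => p.1 + p.2) * #(A.image Prod.snd)))) := by
  classical
  have h1 : #(configs A) ≤ m * #((configs A).image data) := by
    refine Finset.card_le_mul_card_image _ _ fun d hd => ?_
    obtain ⟨t, ht, rfl⟩ := mem_image.1 hd
    have hty : t.1.2.1 ∈ A.image Prod.snd := by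
      have := (mem_filter.1 ht).1
      have := ((mem_cherries A _).1 (mem_product.1 this).1).1
      exact mem_image.2 ⟨_, this, rfl⟩
    refine le_trans ?_ (hm _ hty)
    have hfin : {y | y ∈ A.image Prod.snd ∧ ψ y = ψ t.1.2.1}.Finite :=
      (A.image Prod.snd).finite_toSet.subset fun y hy => mem_coe.2 hy.1
    rw [Set.ncard_eq_toFinset_card _ hfin]
    refine Finset.card_le_card_of_injOn (fun s => s.1.2.1) ?_ ?_
    · intro s hs
      have hs' := mem_filter.1 (mem_coe.1 hs)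
      have h3 := psi_eq hsq h2 A φ ψ χ hA s t hs'.1 ht hs'.2
      have hsy : s.1.2.1 ∈ A.image Prod.snd := by
        have := (mem_filter.1 hs'.1).1
        have := ((mem_cherries A _).1 (mem_product.1 this).1).1
        exact mem_image.2 ⟨_, this, rfl⟩
      exact mem_coe.2 ((Set.Finite.mem_toFinset hfin).2 ⟨hsy, h3.1⟩)
    · intro s hs u hu hsu
      have hs' := mem_filter.1 (mem_coe.1 hs)
      have hu' := mem_filter.1 (mem_coe.1 hu)
      exact (psi_eq hsq h2 A φ ψ χ hA s u hs'.1 hu'.1 (hs'.2.trans hu'.2.symm)).2 hsu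
  refine h1.trans (Nat.mul_le_mul_left _ ?_)
  rw [← Finset.card_product, ← Finset.card_product, ← Finset.card_product]
  refine Finset.card_le_card fun q hq => ?_
  obtain ⟨⟨⟨x, y, y'⟩, ⟨x1, y1, y1'⟩, ⟨x2, y2, w⟩⟩, ht, rfl⟩ := mem_image.1 hq
  simp only [configs, mem_filter, mem_product, mem_cherries] at ht
  obtain ⟨⟨⟨s1, s2⟩, ⟨s3, s4⟩, ⟨s5, s6⟩⟩, _⟩ := ht
  simp only [data, mem_product]
  exact ⟨mem_image.2 ⟨_, s1, rfl⟩, mem_image.2 ⟨_, s3, rfl⟩, mem_image.2 ⟨_, s4, rfl⟩,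
    mem_image.2 ⟨_, s6, rfl⟩⟩

/-- **The count.** -/
theorem count_snd (hsq : ∀ u v : H, u * u = v * v → u = v) (h2 : ∀ g : G, g + g = 0)
    (A : Finset (G × G)) (φ ψ χ : G → H) (hA : ∀ p ∈ A, φ p.1 * ψ p.2 = χ (p.1 + p.2))
    (m : ℕ) (hm : ∀ g ∈ A.image Prod.snd, Set.ncard {y | y ∈ A.image Prod.snd ∧ ψ y = ψ g} ≤ m) :
    #A ^ 6 ≤ m * (#(A.image Prod.fst) ^ 4 * #(A.image Prod.snd) ^ 4 *
      #(A.image fun p => p.1 + p.2) ^ 3) := by
  have h1 := sq_le_cherries A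
  have h3 := cherries_le_configs A
  have h4 := configs_le hsq h2 A φ ψ χ hA m hm
  calc #A ^ 6 = (#A ^ 2) ^ 3 := by ring
    _ ≤ (#(A.image Prod.fst) * #(cherries A)) ^ 3 := Nat.pow_le_pow_left h1 3
    _ = #(A.image Prod.fst) ^ 3 * #(cherries A) ^ 3 := by ring
    _ ≤ #(A.image Prod.fst) ^ 3 * ((#(A.image Prod.snd) * #(A.image Prod.snd)) *
      (#(A.image Prod.snd) * #(A.image fun p => p.1 + p.2)) * #(configs A)) :=
        Nat.mul_le_mul_left _ h3
    _ ≤ #(A.image Prod.fst) ^ 3 * ((#(A.image Prod.snd) * #(A.image Prod.snd)) *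
      (#(A.image Prod.snd) * #(A.image fun p => p.1 + p.2)) *
        (m * (#(A.image Prod.fst) * (#(A.image fun p => p.1 + p.2) *
      (#(A.image fun p => p.1 + p.2) * #(A.image Prod.snd)))))) :=
        Nat.mul_le_mul_left _ (Nat.mul_le_mul_left _ h4)
    _ = _ := by ring

end Count

end Pool.Agent.Helper41.Corner
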